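import Pool.Agent.Q205.NH.Stm

set_option autoImplicit false

/-! Project NH, job ID: a chain of oracles closed under rainbow sets. -/

namespace Pool.Agent.Q56.NH

open Pool.Agent.Q205.NH Pool.Agent.Helper743 Pool.Agent.H715R3.Disp MeasureTheory
open scoped ENNReal

/-! ### `mix` is measure preserving -/

lemma mix_measurable : Measurable (fun p : (ℕ → Bool) × (ℕ → Bool) => mix p.1 p.2) := by
  refine measurable_pi_lambda _ fun n => ?_
  unfold mix
  split_ifs with h
  · exact (measurable_pi_apply _).comp measurable_fst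
  · exact (measurable_pi_apply _).comp measurable_snd

/-- the indices of the even (odd) elements -/
def evs (s : Finset ℕ) : Finset ℕ := (s.filter fun i => i % 2 = 0).image fun i => i / 2
def ods (s : Finset ℕ) : Finset ℕ := (s.filter fun i => ¬ i % 2 = 0).image fun i => i / 2

lemma mix_map : (mu.prod mu).map (fun p : (ℕ → Bool) × (ℕ → Bool) => mix p.1 p.2) = mu := by
  refine Measure.eq_infinitePi _ fun s t ht => ?_
  rw [Measure.map_apply mix_measurable (MeasurableSet.pi (Finset.countable_toSet s) fun i _ => ht i)]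
  have h1 : (fun p : (ℕ → Bool) × (ℕ → Bool) => mix p.1 p.2) ⁻¹' (Set.pi s t) =
      (Set.pi (evs s) fun j => t (2 * j)) ×ˢ (Set.pi (ods s) fun j => t (2 * j + 1)) := by
    ext ⟨A, B⟩
    simp only [Set.mem_preimage, Set.mem_pi, Set.mem_prod, SetLike.mem_coe, mix, evs, ods,
      Finset.mem_image, Finset.mem_filter]
    constructor
    · intro h
      constructor
      · rintro _ ⟨i, ⟨hi, h2⟩, rfl⟩
        have h3 := h i hi
        rw [if_pos h2] at h3
        have h4 : 2 * (i / 2) = i := by omega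
        rw [h4]; exact h3
      · rintro _ ⟨i, ⟨hi, h2⟩, rfl⟩
        have h3 := h i hi
        rw [if_neg h2] at h3
        have h4 : 2 * (i / 2) + 1 = i := by omega
        rw [h4]; exact h3
    · rintro ⟨h2, h3⟩ i hi
      split_ifs with h4
      · have h5 := h2 (i / 2) ⟨i, ⟨hi, h4⟩, rfl⟩
        have h6 : 2 * (i / 2) = i := by omega
        rw [h6] at h5; exact h5
      · have h5 := h3 (i / 2) ⟨i, ⟨hi, h4⟩, rfl⟩
        have h6 : 2 * (i / 2) + 1 = i := by omega
        rw [h6] at h5; exact h5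
  rw [h1, Measure.prod_prod, Measure.infinitePi_pi _ (fun i _ => ht _),
    Measure.infinitePi_pi _ (fun i _ => ht _), evs, ods, Finset.prod_image, Finset.prod_image,
    ← Finset.prod_filter_mul_prod_filter_not s (fun i => i % 2 = 0)]
  · congr 1
    · refine Finset.prod_congr rfl fun i hi => ?_
      have h2 := (Finset.mem_filter.1 hi).2
      have h6 : 2 * (i / 2) = i := by omega
      rw [h6]
    · refine Finset.prod_congr rfl fun i hi => ?_
      have h2 := (Finset.mem_filter.1 hi).2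
      have h6 : 2 * (i / 2) + 1 = i := by omega
      rw [h6]
  · intro i hi j hj hij
    have h2 := (Finset.mem_filter.1 hi).2
    have h3 := (Finset.mem_filter.1 hj).2
    simp only at hij
    omega
  · intro i hi j hj hij
    have h2 := (Finset.mem_filter.1 hi).2
    have h3 := (Finset.mem_filter.1 hj).2
    simp only at hij
    omega

lemma mix_ae {P : (ℕ → Bool) → Prop} (h : ∀ᵐ B ∂mu, P B) :
    ∀ᵐ Y ∂mu, ∀ᵐ Y' ∂mu, P (mix Y Y') := by
  have h1 : MeasurePreserving (fun p : (ℕ → Bool) × (ℕ → Bool) => mix p.1 p.2) (mu.prod mu) mu :=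
    ⟨mix_measurable, mix_map⟩
  have h2 := h1.quasiMeasurePreserving.ae h
  exact Measure.ae_ae_of_ae_prod h2

/-! ### reductions -/

lemma perm_TR {W W' : ℕ → Bool} (g : ℕ → ℕ) (hg : Computable g) (h : ∀ n, W' n = W (g n)) :
    TR (bn W') (bn W) := by
  have h1 := (TR.refl (bn W)).comp (Computable.recT (O := {((bn W : ℕ → ℕ) : ℕ →. ℕ)}) hg)
  refine Nat.RecursiveIn.of_eq h1 ?_
  intro n
  simp only [bn, h]

lemma c_div2 : Computable (fun n : ℕ => n / 2) :=
  (Primrec.nat_div.comp Primrec.id (Primrec.const 2)).to_comp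

lemma mix_assoc (Z Y Y' : ℕ → Bool) : TR (bn (mix (mix Z Y) Y')) (bn (mix Z (mix Y Y'))) := by
  refine perm_TR (fun n => if n % 2 = 0 then (if n / 2 % 2 = 0 then 2 * (n / 4) else
    4 * (n / 4) + 1) else 4 * (n / 2) + 3) ?_ ?_
  · have m2 : Primrec (fun n : ℕ => n % 2) := Primrec.nat_mod.comp Primrec.id (Primrec.const 2)
    have d2 : Primrec (fun n : ℕ => n / 2) := Primrec.nat_div.comp Primrec.id (Primrec.const 2)
    have d4 : Primrec (fun n : ℕ => n / 4) := Primrec.nat_div.comp Primrec.id (Primrec.const 4)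
    have dm : Primrec (fun n : ℕ => n / 2 % 2) := Primrec.nat_mod.comp d2 (Primrec.const 2)
    have e1 : Primrec (fun n : ℕ => 2 * (n / 4)) := Primrec.nat_mul.comp (Primrec.const 2) d4
    have e2 : Primrec (fun n : ℕ => 4 * (n / 4) + 1) :=
      Primrec.nat_add.comp (Primrec.nat_mul.comp (Primrec.const 4) d4) (Primrec.const 1)
    have e3 : Primrec (fun n : ℕ => 4 * (n / 2) + 3) :=
      Primrec.nat_add.comp (Primrec.nat_mul.comp (Primrec.const 4) d2) (Primrec.const 3)
    exact (Primrec.ite (Primrec.eq.comp m2 (Primrec.const 0))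
      (Primrec.ite (Primrec.eq.comp dm (Primrec.const 0)) e1 e2) e3).to_comp
  · intro n
    unfold mix
    by_cases h1 : n % 2 = 0
    · by_cases h2 : n / 2 % 2 = 0
      · simp only [if_pos h1, if_pos h2]
        rw [if_pos (by omega)]
        congr 1
        omega
      · simp only [if_pos h1, if_neg h2]
        rw [if_neg (by omega), if_pos (by omega)]
        congr 1
        omega
    · simp only [if_neg h1]
      rw [if_neg (by omega), if_neg (by omega)]
      congr 1
      omega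

lemma mix_left (Z Y : ℕ → Bool) : TR (bn Z) (bn (mix Z Y)) := by
  refine perm_TR (fun n => 2 * n) (Primrec.nat_mul.comp (Primrec.const 2) Primrec.id).to_comp ?_
  intro n
  unfold mix
  rw [if_pos (by omega)]
  congr 1
  omega

lemma mix_right (Z Y : ℕ → Bool) : TR (bn Y) (bn (mix Z Y)) := by
  refine perm_TR (fun n => 2 * n + 1) (Primrec.nat_add.comp
    (Primrec.nat_mul.comp (Primrec.const 2) Primrec.id) (Primrec.const 1)).to_comp ?_
  intro n
  unfold mix
  rw [if_neg (by omega)]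
  congr 1
  omega

lemma mix_zero (Y : ℕ → Bool) : TR (bn (mix (fun _ => false) Y)) (bn Y) := by
  have h1 := (TR.refl (bn Y)).comp (Computable.recT (O := {((bn Y : ℕ → ℕ) : ℕ →. ℕ)}) c_div2)
  have h2 := RecT.pair (Computable.recT (O := {((bn Y : ℕ → ℕ) : ℕ →. ℕ)}) Computable.id) h1
  have h3 : Computable (fun z : ℕ => if z.unpair.1 % 2 = 0 then 0 else z.unpair.2) := by
    have a1 : Primrec (fun z : ℕ => z.unpair.1) := Primrec.fst.comp Primrec.unpair
    have a2 : Primrec (fun z : ℕ => z.unpair.2) := Primrec.snd.comp Primrec.unpair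
    exact (Primrec.ite (Primrec.eq.comp (Primrec.nat_mod.comp a1 (Primrec.const 2))
      (Primrec.const 0)) (Primrec.const 0) a2).to_comp
  have h4 := (Computable.recT (O := {((bn Y : ℕ → ℕ) : ℕ →. ℕ)}) h3).comp h2
  refine Nat.RecursiveIn.of_eq h4 ?_
  intro n
  simp only [Nat.unpair_pair, bn, mix, id]
  by_cases h : n % 2 = 0
  · simp [h]
  · simp [h]

/-! ### fine oracles -/

/-- adding a random sequence to `Z` almost surely keeps the property `Q` -/
def Fine (Q : (ℕ → ℕ) → Prop) (Z : ℕ → Bool) : Prop := ∀ᵐ Y ∂mu, Q (bn (mix Z Y))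

section
variable {Q : (ℕ → ℕ) → Prop} (hQ : ∀ g h, TR g h → Q h → Q g)
include hQ

lemma fine_mix {Z : ℕ → Bool} (hZ : Fine Q Z) : ∀ᵐ Y ∂mu, Fine Q (mix Z Y) := by
  filter_upwards [mix_ae hZ] with Y hY
  filter_upwards [hY] with Y' hY'
  exact hQ _ _ (mix_assoc Z Y Y') hY'

lemma fine_zero (h : ∀ᵐ B ∂mu, Q (bn B)) : Fine Q (fun _ => false) := by
  filter_upwards [h] with Y hY
  exact hQ _ _ (mix_zero Y) hY

lemma fine_self {Z : ℕ → Bool} (hZ : Fine Q Z) : Q (bn Z) := by
  obtain ⟨Y, hY⟩ := hZ.exists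
  exact hQ _ _ (mix_left Z Y) hY

end

lemma countable_TR (G : ℕ → ℕ) : {f : ℕ → ℕ | TR f G}.Countable := by
  classical
  let F : ℕ → (ℕ → ℕ) := fun p =>
    if h : ∃ f : ℕ → ℕ, ∀ x y, y ∈ ((f : ℕ →. ℕ) x) ↔ ∃ n, gam p (pre G n) x = some y then
      h.choose else fun _ => 0
  refine (Set.countable_range F).mono ?_
  intro f hf
  obtain ⟨p, hp⟩ := exists_gam G f hf
  refine ⟨p, ?_⟩
  have h : ∃ f : ℕ → ℕ, ∀ x y, y ∈ ((f : ℕ →. ℕ) x) ↔ ∃ n, gam p (pre G n) x = some y := ⟨f, hp⟩
  simp only [F]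
  rw [dif_pos h]
  funext x
  have h2 := h.choose_spec x (f x)
  rw [← hp x (f x)] at h2
  have h3 : f x ∈ ((f : ℕ →. ℕ) x) := Part.mem_some _
  have h4 := h2.2 h3
  exact (Part.mem_some_iff.1 h4).symm

/-- the step of the construction -/
lemma step (hRR : S_RR) {Q : (ℕ → ℕ) → Prop} (hQ : ∀ g h, TR g h → Q h → Q g) {Z : ℕ → Bool}
    (hZ : Fine Q Z) : ∃ Z' : ℕ → Bool, Fine Q Z' ∧ TR (bn Z) (bn Z') ∧
      ∀ f, TR f (bn Z) → TwoBounded f →
      ∃ h : ℕ → Bool, TR (bn h) (bn Z') ∧ {x | h x = true}.Infinite ∧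
        RainbowSet f {x | h x = true} := by
  have h1 : ∀ᵐ Y ∂mu, ∀ f ∈ {f : ℕ → ℕ | TR f (bn Z)}, TwoBounded f → ∃ h : ℕ → Bool,
      TR (bn h) (join f (bn Y)) ∧ {x | h x = true}.Infinite ∧ RainbowSet f {x | h x = true} := by
    rw [ae_ball_iff (countable_TR (bn Z))]
    intro f _
    by_cases h2 : TwoBounded f
    · filter_upwards [hRR f h2] with Y hY _
      exact hY
    · exact Filter.Eventually.of_forall fun Y h3 => absurd h3 h2
  obtain ⟨Y, hY1, hY2⟩ := (h1.and (fine_mix hQ hZ)).exists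
  refine ⟨mix Z Y, hY2, mix_left Z Y, ?_⟩
  intro f hf hf2
  obtain ⟨h, h3, h4, h5⟩ := hY1 f hf hf2
  exact ⟨h, h3.trans (TR_join (hf.trans (mix_left Z Y)) (mix_right Z Y)), h4, h5⟩

theorem idl (hRR : S_RR) : S_ID := by
  intro Q hQ hae
  classical
  choose! nxt h1 h2 h3 using fun (Z : ℕ → Bool) (hZ : Fine Q Z) => step hRR hQ hZ
  let Z : ℕ → (ℕ → Bool) := fun n => Nat.rec (fun _ => false) (fun _ z => nxt z) n
  have hZ : ∀ n, Fine Q (Z n) := by
    intro n
    induction n with
    | zero => exact fine_zero hQ hae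
    | succ n ih => exact h1 _ ih
  refine ⟨Z, fun n => fine_self hQ (hZ n), fun n => h2 _ (hZ n), ?_⟩
  intro n f hf hf2
  exact h3 _ (hZ n) f hf hf2

end Pool.Agent.Q56.NH
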