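import Pool.Agent.Q205.NH.Stm2

set_option autoImplicit false

/-! Project NH, job MD: the structure of a chain of oracles is a model of `RCA₀`. -/

namespace Pool.Agent.Q56.NH

open Pool.Agent.Q205.NH Pool.Agent.Helper743 Pool.Agent.H715R3.Disp
open Pool.Agent.Helper617.RM (L2Structure IsModelRCA0 Term Delta0 cons)

/-- the assignment whose first `m` values are coded by `z` -/
def asg : ℕ → ℕ → (ℕ → ℕ) → ℕ → ℕ
  | 0, _, v => v
  | m + 1, z, v => cons z.unpair.1 (asg m z.unpair.2 v)

lemma asg_computable (m : ℕ) (v : ℕ → ℕ) (i : ℕ) : Computable (fun z : ℕ => asg m z v i) := by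
  induction m generalizing i with
  | zero => exact Computable.const _
  | succ m ih =>
    cases i with
    | zero => exact Computable.fst.comp Computable.unpair
    | succ i => exact (ih i).comp (Computable.snd.comp Computable.unpair)

variable {Z : ℕ → (ℕ → Bool)}

/-- value of a term -/
def tv (t : Term (omega Z)) (v : ℕ → ℕ) : ℕ := t.val (N := omega Z) v

/-- truth of a formula -/
def hold (φ : Delta0 (omega Z)) (v : ℕ → ℕ) : Prop := φ.Holds (N := omega Z) v

lemma term_computable (t : Term (omega Z)) (m : ℕ) (v : ℕ → ℕ) :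
    Computable (fun z : ℕ => tv t (asg m z v)) := by
  induction t with
  | var i => exact asg_computable m v i
  | const a => exact (Computable.const (show ℕ from a) : Computable (fun _ : ℕ => (show ℕ from a)))
  | zero => exact Computable.const (0 : ℕ)
  | one => exact Computable.const (1 : ℕ)
  | add s t h1 h2 => exact (Primrec.nat_add.to_comp).comp h1 h2
  | mul s t h1 h2 => exact (Primrec.nat_mul.to_comp).comp h1 h2

open Classical in
/-- characteristic function -/
noncomputable def chi (φ : Delta0 (omega Z)) (m : ℕ) (v : ℕ → ℕ) : ℕ → ℕ :=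
  fun z => if hold φ (asg m z v) then 1 else 0

/-- decidable in the oracle `G` -/
def Dec (G : ℕ → ℕ) (φ : Delta0 (omega Z)) : Prop :=
  ∀ m v, RecT {((G : ℕ → ℕ) : ℕ →. ℕ)} (chi φ m v)

/-- product of the values of a function recursive in an oracle -/
lemma recT_all {O : Set (ℕ →. ℕ)} {g : ℕ → ℕ} (hg : RecT O g) {T : ℕ → ℕ} (hT : RecT O T) :
    RecT O (fun z => if ∀ a < T z, g (Nat.pair a z) = 1 then 1 else 0) := by
  have h1 : RecT O (fun w : ℕ => Nat.pair (g (Nat.pair w.unpair.2.unpair.1 w.unpair.1))
      w.unpair.2.unpair.2) := by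
    have a1 : Computable (fun w : ℕ => Nat.pair w.unpair.2.unpair.1 w.unpair.1) :=
      Primrec₂.natPair.to_comp.comp
        (Computable.fst.comp (Computable.unpair.comp (Computable.snd.comp Computable.unpair)))
        (Computable.fst.comp Computable.unpair)
    have a2 : Computable (fun w : ℕ => w.unpair.2.unpair.2) :=
      Computable.snd.comp (Computable.unpair.comp (Computable.snd.comp Computable.unpair))
    exact RecT.pair (hg.comp (Computable.recT a1)) (Computable.recT a2)
  have h2 : Computable (fun w : ℕ => if w.unpair.1 = 1 then w.unpair.2 else 0) := by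
    have a1 : Primrec (fun w : ℕ => w.unpair.1) := Primrec.fst.comp Primrec.unpair
    have a2 : Primrec (fun w : ℕ => w.unpair.2) := Primrec.snd.comp Primrec.unpair
    exact (Primrec.ite (Primrec.eq.comp a1 (Primrec.const 1)) a2 (Primrec.const 0)).to_comp
  have h3 := (Computable.recT (O := O) h2).comp h1
  have h4 := RecT.prec (Computable.recT (O := O) (Computable.const 1)) h3
  have h5 := h4.comp (RecT.pair (Computable.recT (O := O) Computable.id) hT)
  refine Nat.RecursiveIn.of_eq h5 ?_
  intro z
  congr 1
  simp only [Nat.unpair_pair, id]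
  generalize T z = n
  induction n with
  | zero => simp
  | succ n ih =>
    simp only [ih]
    by_cases h6 : g (Nat.pair n z) = 1
    · rw [if_pos h6]
      refine if_congr ?_ rfl rfl
      constructor
      · intro h a ha
        rcases Nat.lt_succ_iff_lt_or_eq.1 ha with h7 | h7
        · exact h a h7
        · rw [h7]; exact h6
      · intro h a ha
        exact h a (by omega)
    · rw [if_neg h6, if_neg]
      intro h
      exact h6 (h n (by omega))

lemma dec_all (hZ : ∀ n, TR (bn (Z n)) (bn (Z (n + 1)))) (φ : Delta0 (omega Z)) :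
    ∃ N, ∀ M, N ≤ M → Dec (bn (Z M)) φ := by
  have chain : ∀ n m, n ≤ m → TR (bn (Z n)) (bn (Z m)) := by
    intro n m h
    induction m, h using Nat.le_induction with
    | base => exact TR.refl _
    | succ m _ ih => exact ih.trans (hZ m)
  classical
  induction φ with
  | eq s t =>
    refine ⟨0, fun M _ m v => ?_⟩
    have h1 : Computable (fun z : ℕ => if tv s (asg m z v) = tv t (asg m z v) then 1 else 0) := by
      have h2 : Primrec (fun q : ℕ × ℕ => if q.1 = q.2 then 1 else 0) :=
        Primrec.ite (Primrec.eq.comp Primrec.fst Primrec.snd) (Primrec.const 1) (Primrec.const 0)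
      exact h2.to_comp.comp ((term_computable s m v).pair (term_computable t m v))
    refine Nat.RecursiveIn.of_eq (Computable.recT h1) fun z => ?_
    congr 1
    unfold chi
    exact if_congr Iff.rfl rfl rfl
  | lt s t =>
    refine ⟨0, fun M _ m v => ?_⟩
    have h1 : Computable (fun z : ℕ => if tv s (asg m z v) < tv t (asg m z v) then 1 else 0) := by
      have h2 : Primrec (fun q : ℕ × ℕ => if q.1 < q.2 then 1 else 0) :=
        Primrec.ite (Primrec.nat_lt.comp Primrec.fst Primrec.snd) (Primrec.const 1)
          (Primrec.const 0)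
      exact h2.to_comp.comp ((term_computable s m v).pair (term_computable t m v))
    refine Nat.RecursiveIn.of_eq (Computable.recT h1) fun z => ?_
    congr 1
    unfold chi
    exact if_congr Iff.rfl rfl rfl
  | mem t X =>
    obtain ⟨n, h, hh, hX⟩ := X.2
    refine ⟨n, fun M hM m v => ?_⟩
    have h1 : RecT {((bn (Z M) : ℕ → ℕ) : ℕ →. ℕ)} (fun z => bn h (tv t (asg m z v))) :=
      (hh.trans (chain n M hM)).comp (Computable.recT (term_computable t m v))
    refine Nat.RecursiveIn.of_eq h1 fun z => ?_
    congr 1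
    unfold chi
    have h2 : hold (.mem t X) (asg m z v) ↔ h (tv t (asg m z v)) = true := by
      change (tv t (asg m z v)) ∈ (X.1 : Set ℕ) ↔ _
      rw [hX]
      rfl
    by_cases h3 : h (tv t (asg m z v)) = true
    · rw [if_pos (h2.2 h3)]
      simp [bn, h3]
    · rw [if_neg (fun h4 => h3 (h2.1 h4))]
      simp only [Bool.not_eq_true] at h3
      simp [bn, h3]
  | neg φ ih =>
    obtain ⟨N, hN⟩ := ih
    refine ⟨N, fun M hM m v => ?_⟩
    have h1 := (Computable.recT (O := {((bn (Z M) : ℕ → ℕ) : ℕ →. ℕ)})
      (Primrec.nat_sub.comp (Primrec.const 1) Primrec.id : Primrec (fun n : ℕ => 1 - n)).to_comp).comp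
      (hN M hM m v)
    refine Nat.RecursiveIn.of_eq h1 fun z => ?_
    congr 1
    unfold chi
    simp only
    by_cases h2 : hold φ (asg m z v)
    · rw [if_pos h2, if_neg]
      intro h3
      exact h3 h2
    · rw [if_neg h2, if_pos]
      exact h2
  | and φ ψ ih1 ih2 =>
    obtain ⟨N1, hN1⟩ := ih1
    obtain ⟨N2, hN2⟩ := ih2
    refine ⟨max N1 N2, fun M hM m v => ?_⟩
    have h0 : Computable (fun z : ℕ => z.unpair.1 * z.unpair.2) :=
      (Primrec.nat_mul.comp (Primrec.fst.comp Primrec.unpair)
        (Primrec.snd.comp Primrec.unpair)).to_comp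
    have h1 := (Computable.recT (O := {((bn (Z M) : ℕ → ℕ) : ℕ →. ℕ)}) h0).comp
      (RecT.pair (hN1 M (le_trans (le_max_left _ _) hM) m v)
        (hN2 M (le_trans (le_max_right _ _) hM) m v))
    refine Nat.RecursiveIn.of_eq h1 fun z => ?_
    congr 1
    simp only [Nat.unpair_pair]
    unfold chi
    have h2 : hold (.and φ ψ) (asg m z v) ↔ hold φ (asg m z v) ∧ hold ψ (asg m z v) := Iff.rfl
    by_cases h3 : hold φ (asg m z v) <;> by_cases h4 : hold ψ (asg m z v) <;>
      simp [h2, h3, h4]
  | ball t φ ih =>
    obtain ⟨N, hN⟩ := ih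
    refine ⟨N, fun M hM m v => ?_⟩
    have h1 := recT_all (hN M hM (m + 1) v)
      (Computable.recT (O := {((bn (Z M) : ℕ → ℕ) : ℕ →. ℕ)}) (term_computable t m v))
    refine Nat.RecursiveIn.of_eq h1 fun z => ?_
    congr 1
    unfold chi
    refine if_congr ?_ rfl rfl
    have h2 : hold (.ball t φ) (asg m z v) ↔
        ∀ a < tv t (asg m z v), hold φ (cons a (asg m z v)) := Iff.rfl
    rw [h2]
    have h3 : ∀ a, asg (m + 1) (Nat.pair a z) v = cons a (asg m z v) := by
      intro a
      simp [asg]
    constructor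
    · intro h a ha
      have h4 := h a ha
      rw [h3 a] at h4
      by_contra h5
      rw [if_neg h5] at h4
      exact absurd h4 (by norm_num)
    · intro h a ha
      rw [h3 a, if_pos (h a ha)]

theorem md : S_MD := by
  intro Z hZ
  refine ⟨fun n => Nat.succ_ne_zero n, fun m n h => Nat.succ.inj h, fun m => Nat.add_zero m,
    fun m n => rfl, fun m => Nat.mul_zero m, fun m n => rfl, fun m => Nat.not_lt_zero m,
    fun m n => Nat.lt_succ_iff_lt_or_eq, ?_, ?_⟩
  · intro θ v h0 hs n
    exact Nat.rec (motive := fun n => ∃ k, θ.Holds (cons k (cons n v))) h0 (fun n ih => hs n ih) n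
  · intro θ ψ v h
    classical
    obtain ⟨N1, hN1⟩ := dec_all hZ θ
    obtain ⟨N2, hN2⟩ := dec_all hZ ψ
    have hT := hN1 (max N1 N2) (le_max_left _ _)
    have hP := hN2 (max N1 N2) (le_max_right _ _)
    set G := bn (Z (max N1 N2)) with hG
    refine ⟨max N1 N2, fun n => decide (∃ k : ℕ, θ.Holds (N := omega Z) (cons k (cons n v))), ?_, ?_⟩
    · rw [← hG]
      -- swap the arguments
      have a0 : Computable (fun z : ℕ => Nat.pair z.unpair.2 (Nat.pair z.unpair.1 0)) :=
        Primrec₂.natPair.to_comp.comp (Computable.snd.comp Computable.unpair)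
          (Primrec₂.natPair.to_comp.comp (Computable.fst.comp Computable.unpair)
            (Computable.const 0))
      have a1 := (hT 2 v).comp (Computable.recT a0)
      have a2 := (hP 2 v).comp (Computable.recT a0)
      have a3 : Computable (fun z : ℕ => if z.unpair.1 = 1 ∨ z.unpair.2 = 0 then 0 else 1) := by
        have b1 : Primrec (fun z : ℕ => z.unpair.1) := Primrec.fst.comp Primrec.unpair
        have b2 : Primrec (fun z : ℕ => z.unpair.2) := Primrec.snd.comp Primrec.unpair
        exact (Primrec.ite (PrimrecPred.or (Primrec.eq.comp b1 (Primrec.const 1))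
          (Primrec.eq.comp b2 (Primrec.const 0))) (Primrec.const 0) (Primrec.const 1)).to_comp
      have a4 := (Computable.recT (O := {((G : ℕ → ℕ) : ℕ →. ℕ)}) a3).comp (RecT.pair a1 a2)
      have e1 : ∀ n k : ℕ, asg 2 (Nat.pair k (Nat.pair n 0)) v = cons k (cons n v) := by
        intro n k
        simp [asg]
      have e2 : ∀ n k : ℕ, hold θ (asg 2 (Nat.pair k (Nat.pair n 0)) v) ↔
          θ.Holds (N := omega Z) (cons k (cons n v)) := by
        intro n k; rw [e1]; exact Iff.rfl
      have e3 : ∀ n k : ℕ, hold ψ (asg 2 (Nat.pair k (Nat.pair n 0)) v) ↔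
          ψ.Holds (N := omega Z) (cons k (cons n v)) := by
        intro n k; rw [e1]; exact Iff.rfl
      have hg : RecT {((G : ℕ → ℕ) : ℕ →. ℕ)} (fun z : ℕ =>
          if chi θ 2 v (Nat.pair z.unpair.2 (Nat.pair z.unpair.1 0)) = 1 ∨
            chi ψ 2 v (Nat.pair z.unpair.2 (Nat.pair z.unpair.1 0)) = 0 then 0 else 1) := by
        refine Nat.RecursiveIn.of_eq a4 fun n => ?_
        congr 1
        simp only [Nat.unpair_pair]
      have hex : ∀ n, ∃ k, (fun z : ℕ =>
          if chi θ 2 v (Nat.pair z.unpair.2 (Nat.pair z.unpair.1 0)) = 1 ∨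
            chi ψ 2 v (Nat.pair z.unpair.2 (Nat.pair z.unpair.1 0)) = 0 then 0 else 1)
              (Nat.pair n k) = 0 := by
        intro n
        by_cases h1 : ∃ k : ℕ, θ.Holds (N := omega Z) (cons k (cons n v))
        · obtain ⟨k, hk⟩ := h1
          refine ⟨k, ?_⟩
          simp only [Nat.unpair_pair]
          rw [if_pos]
          left
          unfold chi
          rw [if_pos ((e2 n k).2 hk)]
        · have h2 := mt (h n).2 h1
          push Not at h2
          obtain ⟨k, hk⟩ : ∃ k : ℕ, ¬ ψ.Holds (N := omega Z) (cons k (cons n v)) := h2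
          refine ⟨k, ?_⟩
          simp only [Nat.unpair_pair]
          rw [if_pos]
          right
          unfold chi
          rw [if_neg (fun h3 => hk ((e3 n k).1 h3))]
      obtain ⟨F, a5, hF⟩ : ∃ F : ℕ → ℕ, RecT {((G : ℕ → ℕ) : ℕ →. ℕ)} F ∧ ∀ n, (fun z : ℕ =>
          if chi θ 2 v (Nat.pair z.unpair.2 (Nat.pair z.unpair.1 0)) = 1 ∨
            chi ψ 2 v (Nat.pair z.unpair.2 (Nat.pair z.unpair.1 0)) = 0 then 0 else 1)
              (Nat.pair n (F n)) = 0 :=
        ⟨fun n => Nat.find (hex n), RecT.find hg hex, fun n => Nat.find_spec (hex n)⟩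
      have a6 := a1.comp (RecT.pair (Computable.recT (O := {((G : ℕ → ℕ) : ℕ →. ℕ)}) Computable.id) a5)
      refine Nat.RecursiveIn.of_eq a6 fun n => ?_
      congr 1
      have hsp := hF n
      simp only [Nat.unpair_pair, id] at hsp ⊢
      generalize F n = k at hsp ⊢
      have h3 : chi θ 2 v (Nat.pair k (Nat.pair n 0)) = 1 ∨
          chi ψ 2 v (Nat.pair k (Nat.pair n 0)) = 0 := by
        by_contra hcon
        rw [if_neg hcon] at hsp
        exact absurd hsp (by norm_num)
      unfold bn
      rcases h3 with h3 | h3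
      · have h4 : hold θ (asg 2 (Nat.pair k (Nat.pair n 0)) v) := by
          by_contra hcon
          unfold chi at h3
          rw [if_neg hcon] at h3
          exact absurd h3 (by norm_num)
        have h5 : ∃ k : ℕ, θ.Holds (N := omega Z) (cons k (cons n v)) := ⟨k, (e2 n k).1 h4⟩
        have h7 : decide (∃ k : ℕ, θ.Holds (N := omega Z) (cons k (cons n v))) = true :=
          decide_eq_true h5
        rw [h3]
        exact (congrArg Bool.toNat h7).symm
      · have h4 : ¬ hold ψ (asg 2 (Nat.pair k (Nat.pair n 0)) v) := by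
          intro hcon
          unfold chi at h3
          rw [if_pos hcon] at h3
          exact absurd h3 (by norm_num)
        have h5 : ¬ ∃ k : ℕ, θ.Holds (N := omega Z) (cons k (cons n v)) := by
          intro h6
          exact h4 ((e3 n k).2 ((h n).1 h6 k))
        have h7 : decide (∃ k : ℕ, θ.Holds (N := omega Z) (cons k (cons n v))) = false :=
          decide_eq_false h5
        have h8 : chi θ 2 v (Nat.pair k (Nat.pair n 0)) = 0 := by
          unfold chi
          rw [if_neg (fun h6 => h5 ⟨k, (e2 n k).1 h6⟩)]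
        rw [h8]
        exact (congrArg Bool.toNat h7).symm
    · ext n
      simp only [Set.mem_ofPred_eq, decide_eq_true_eq]
      exact Iff.rfl

end Pool.Agent.Q56.NH
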