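import Pool.Agent.Q205.NH.Stm

set_option autoImplicit false

/-! Project NH, job R1: the random process goes on for ever with large probability. -/

namespace Pool.Agent.Q56.NH

open Pool.Agent.Q205.NH Pool.Agent.Helper743 Pool.Agent.H715R3.Disp MeasureTheory ProbabilityTheory
open scoped ENNReal

/-- the second clause of `New` -/
def OK (f : ℕ → ℕ) (l : List ℕ) (y : ℕ) : Prop :=
  ∀ a ∈ l, ∀ b ∈ l, a ≠ b → f (Nat.pair a y) ≠ f (Nat.pair b y)

lemma run_length {f r : ℕ → ℕ} {n : ℕ} {l : List ℕ} (h : Run f r n l) : l.length = n := by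
  induction h with
  | nil => rfl
  | step _ _ _ ih => simp [ih]

lemma ncard_lt {f : ℕ → ℕ} {l : List ℕ} {y y' : ℕ} (hy : New f l y) (h : y < y') :
    {z | z < y ∧ New f l z}.ncard < {z | z < y' ∧ New f l z}.ncard := by
  apply Set.ncard_lt_ncard
  · constructor
    · intro z hz
      exact ⟨lt_trans hz.1 h, hz.2⟩
    · intro hcon
      have := hcon (⟨h, hy⟩ : y ∈ {z | z < y' ∧ New f l z})
      exact lt_irrefl _ this.1
  · exact (Set.finite_lt_nat y').subset fun z hz => hz.1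

lemma new_unique {f : ℕ → ℕ} {l : List ℕ} {y y' : ℕ} (hy : New f l y) (hy' : New f l y')
    (h : {z | z < y ∧ New f l z}.ncard = {z | z < y' ∧ New f l z}.ncard) : y = y' := by
  rcases lt_trichotomy y y' with h1 | h1 | h1
  · exact absurd h (ncard_lt hy h1).ne
  · exact h1
  · exact absurd h (ncard_lt hy' h1).ne'

lemma run_unique {f r r' : ℕ → ℕ} {n : ℕ} (hr : ∀ i < n, r i = r' i) {l l' : List ℕ}
    (h : Run f r n l) (h' : Run f r' n l') : l = l' := by
  induction n generalizing l l' with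
  | zero =>
    cases h
    cases h'
    rfl
  | succ n ih =>
    cases h with
    | step h1 h2 h3 =>
      cases h' with
      | step h4 h5 h6 =>
        have h7 := ih (fun i hi => hr i (by omega)) h1 h4
        subst h7
        rw [new_unique h2 h5 (by rw [h3, h6, hr n (by omega)])]

lemma run_congr {f r r' : ℕ → ℕ} {n : ℕ} (hr : ∀ i < n, r i = r' i) {l : List ℕ}
    (h : Run f r n l) : Run f r' n l := by
  induction n generalizing l with
  | zero =>
    cases h
    exact Run.nil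
  | succ n ih =>
    cases h with
    | step h1 h2 h3 =>
      exact Run.step (ih (fun i hi => hr i (by omega)) h1) h2 (by rw [h3, hr n (by omega)])

/-- infinitely many candidates can be added -/
lemma new_infinite {f : ℕ → ℕ} (hf : TwoBounded f) {l : List ℕ}
    (h : {y | OK f l y}.Infinite) : {y | New f l y}.Infinite := by
  have h1 : {y | OK f l y} ⊆ {y | New f l y} ∪ ((⋃ a ∈ l.toFinset, Set.Iic a) ∪
      ⋃ a ∈ l.toFinset, ⋃ b ∈ l.toFinset, ⋃ k ∈ l.toFinset,
        {y | k < y ∧ f (Nat.pair k y) = f (Nat.pair a b)}) := by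
    intro y hy
    by_cases h2 : ∀ a ∈ l, a < y
    · by_cases h3 : ∀ a ∈ l, ∀ b ∈ l, ∀ k ∈ l, a < b → f (Nat.pair k y) ≠ f (Nat.pair a b)
      · exact Or.inl ⟨h2, hy, h3⟩
      · right; right
        push Not at h3
        obtain ⟨a, ha, b, hb, k, hk, _, h4⟩ := h3
        simp only [Set.mem_iUnion, List.mem_toFinset]
        exact ⟨a, ha, b, hb, k, hk, h2 k hk, h4⟩
    · right; left
      push Not at h2
      obtain ⟨a, ha, h3⟩ := h2
      simp only [Set.mem_iUnion, List.mem_toFinset]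
      exact ⟨a, ha, h3⟩
  intro hcon
  apply h
  refine (hcon.union (Set.Finite.union ?_ ?_)).subset h1
  · exact Set.Finite.biUnion (Finset.finite_toSet _) fun a _ => Set.finite_Iic a
  · refine Set.Finite.biUnion (Finset.finite_toSet _) fun a _ => ?_
    refine Set.Finite.biUnion (Finset.finite_toSet _) fun b _ => ?_
    refine Set.Finite.biUnion (Finset.finite_toSet _) fun k _ => ?_
    have h5 : {p : ℕ × ℕ | p.1 < p.2 ∧ f (Nat.pair p.1 p.2) = f (Nat.pair a b)}.Finite := by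
      apply Set.finite_of_encard_le_coe (k := 2)
      exact hf _
    refine Set.Finite.of_finite_image (f := fun y => (k, y)) (h5.subset ?_) ?_
    · rintro p ⟨y, hy, rfl⟩
      exact hy
    · intro y _ z _ hyz
      exact (Prod.mk.inj hyz).2

/-- a run can be continued -/
lemma run_step {f r : ℕ → ℕ} (hf : TwoBounded f) {n : ℕ} {l : List ℕ} (h : Run f r n l)
    (h2 : {y | OK f l y}.Infinite) : ∃ y, Run f r (n + 1) (l ++ [y]) := by
  classical
  have h3 := new_infinite hf h2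
  refine ⟨Nat.nth (New f l) (r n), Run.step h (Nat.nth_mem_of_infinite h3 _) ?_⟩
  have h5 := Nat.count_nth_of_infinite h3 (r n)
  rw [Nat.count_eq_card_filter_range, ← Set.ncard_coe_finset] at h5
  refine Eq.trans ?_ h5
  congr 1
  ext z
  simp

/-- at most one element has the colour of `a` -/
lemma colour_unique {f : ℕ → ℕ} (hf : TwoBounded f) {a y x x' : ℕ} (ha : a < y) (hx : x < y)
    (hx' : x' < y) (h1 : x ≠ a) (h2 : x' ≠ a) (h3 : f (Nat.pair x y) = f (Nat.pair a y))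
    (h4 : f (Nat.pair x' y) = f (Nat.pair a y)) : x = x' := by
  by_contra hne
  have h5 : ({(a, y), (x, y), (x', y)} : Set (ℕ × ℕ)) ⊆
      {p : ℕ × ℕ | p.1 < p.2 ∧ f (Nat.pair p.1 p.2) = f (Nat.pair a y)} := by
    rintro p (rfl | rfl | rfl)
    · exact ⟨ha, rfl⟩
    · exact ⟨hx, h3⟩
    · exact ⟨hx', h4⟩
  have h6 := (Set.encard_le_encard h5).trans (hf _)
  rw [Set.encard_insert_of_notMem, Set.encard_pair] at h6
  · norm_num at h6
  · intro h; exact hne (Prod.mk.inj h).1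
  · rintro (h | h)
    · exact h1 (Prod.mk.inj h).1.symm
    · exact h2 (Prod.mk.inj h).1.symm

/-! ### bits -/

lemma sum_bits_lt (b : ℕ → Bool) (N : ℕ) : ∑ i ∈ Finset.range N, (b i).toNat * 2 ^ i < 2 ^ N := by
  induction N with
  | zero => simp
  | succ N ih =>
    rw [Finset.sum_range_succ, pow_succ]
    have : (b N).toNat * 2 ^ N ≤ 2 ^ N := by
      cases b N <;> simp
    omega

lemma bits_unique {b b' : ℕ → Bool} {N : ℕ}
    (h : ∑ i ∈ Finset.range N, (b i).toNat * 2 ^ i = ∑ i ∈ Finset.range N, (b' i).toNat * 2 ^ i) :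
    ∀ i < N, b i = b' i := by
  induction N with
  | zero => intro i hi; omega
  | succ N ih =>
    rw [Finset.sum_range_succ, Finset.sum_range_succ] at h
    have h1 := sum_bits_lt b N
    have h2 := sum_bits_lt b' N
    have h3 : b N = b' N := by
      cases h4 : b N <;> cases h5 : b' N <;> simp only [h4, h5, Bool.toNat_true, Bool.toNat_false] at h
      · rfl
      · omega
      · omega
      · rfl
    rw [h3] at h
    intro i hi
    rcases Nat.lt_succ_iff_lt_or_eq.1 hi with h6 | h6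
    · exact ih (by omega) i h6
    · rw [h6]; exact h3

/-- the coordinates used by the `n`-th random number -/
def blk (k n : ℕ) : Finset ℕ := (Finset.range (2 * n + 1 + k)).image (Nat.pair n)

/-- the coordinates used by the first `n` random numbers -/
def pr (k n : ℕ) : Finset ℕ := (Finset.range n).biUnion (blk k)

lemma blk_card (k n : ℕ) : (blk k n).card = 2 * n + 1 + k := by
  rw [blk, Finset.card_image_of_injective _ fun a b h => (Nat.pair_eq_pair.1 h).2,
    Finset.card_range]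

lemma disj (k n : ℕ) : Disjoint (pr k n) (blk k n) := by
  rw [Finset.disjoint_left]
  intro x hx hx2
  simp only [pr, blk, Finset.mem_biUnion, Finset.mem_image, Finset.mem_range] at hx hx2
  obtain ⟨i, hi, j, _, h1⟩ := hx
  obtain ⟨j', _, h2⟩ := hx2
  rw [← h2, Nat.pair_eq_pair] at h1
  omega

lemma rnd_blk (k n : ℕ) (Y Y' : ℕ → Bool) (h : ∀ i ∈ blk k n, Y i = Y' i) :
    rnd k Y n = rnd k Y' n := by
  unfold rnd
  refine Finset.sum_congr rfl fun i hi => ?_
  rw [h _ (Finset.mem_image_of_mem _ hi)]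

lemma rnd_pr (k n : ℕ) (Y Y' : ℕ → Bool) (h : ∀ i ∈ pr k n, Y i = Y' i) :
    ∀ m < n, rnd k Y m = rnd k Y' m := by
  intro m hm
  apply rnd_blk
  intro i hi
  exact h i (Finset.mem_biUnion.2 ⟨m, Finset.mem_range.2 hm, hi⟩)

/-! ### measure -/

/-- `A` depends only on the coordinates in `S` -/
def Dep (S : Finset ℕ) (A : Set (ℕ → Bool)) : Prop :=
  ∀ Y Y' : ℕ → Bool, (∀ i ∈ S, Y i = Y' i) → Y ∈ A → Y' ∈ A

lemma dep_eq {S : Finset ℕ} {A : Set (ℕ → Bool)} (h : Dep S A) :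
    A = (fun (Y : ℕ → Bool) (i : S) => Y i) ⁻¹' ((fun (Y : ℕ → Bool) (i : S) => Y i) '' A) := by
  ext Y
  constructor
  · intro hY
    exact ⟨Y, hY, rfl⟩
  · rintro ⟨Y', hY', h2⟩
    refine h Y' Y ?_ hY'
    intro i hi
    exact congrFun h2 ⟨i, hi⟩

lemma dep_meas {S : Finset ℕ} {A : Set (ℕ → Bool)} (h : Dep S A) : MeasurableSet A := by
  rw [dep_eq h]
  have h1 : Measurable (fun (Y : ℕ → Bool) (i : S) => Y i) :=
    measurable_pi_lambda _ fun i => measurable_pi_apply _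
  exact h1 (Set.Finite.measurableSet (Set.toFinite _))

lemma coord_indep : iIndepFun (fun (i : ℕ) (Y : ℕ → Bool) => Y i) mu := by
  rw [iIndepFun_iff_map_fun_eq_infinitePi_map (fun i => measurable_pi_apply i)]
  have h1 : (fun (ω : ℕ → Bool) i => ω i) = id := rfl
  have h2 : (fun i : ℕ => mu.map (fun Y : ℕ → Bool => Y i)) =
      fun _ : ℕ => (PMF.uniformOfFintype Bool).toMeasure := by
    funext i
    exact (measurePreserving_eval_infinitePi
      (fun _ : ℕ => (PMF.uniformOfFintype Bool).toMeasure) i).map_eq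
  rw [h1, Measure.map_id, h2]

lemma dep_indep {S T : Finset ℕ} (hST : Disjoint S T) {A B : Set (ℕ → Bool)} (hA : Dep S A)
    (hB : Dep T B) : mu (A ∩ B) = mu A * mu B := by
  have h1 := coord_indep.indepFun_finset S T hST (fun i => measurable_pi_apply i)
  have h2 := h1.measure_inter_preimage_eq_mul
    ((fun (Y : ℕ → Bool) (i : S) => Y i) '' A) ((fun (Y : ℕ → Bool) (i : T) => Y i) '' B)
    (Set.Finite.measurableSet (Set.toFinite _)) (Set.Finite.measurableSet (Set.toFinite _))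
  rw [← dep_eq hA, ← dep_eq hB] at h2
  exact h2

lemma cyl_fin (b : ℕ → Bool) (S : Finset ℕ) : mu {B | ∀ i ∈ S, B i = b i} =
    (2⁻¹ : ℝ≥0∞) ^ S.card := by
  have h1 : {B : ℕ → Bool | ∀ i ∈ S, B i = b i} =
      Set.pi (S : Set ℕ) (fun i => ({b i} : Set Bool)) := by
    ext B
    simp [Set.mem_pi]
  rw [h1, Measure.infinitePi_pi _ (fun i _ => MeasurableSet.singleton _)]
  simp only [coin, Finset.prod_const]

/-- the `n`-th random number lies in a given set of at most one element -/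
lemma rnd_one (k n : ℕ) (S : Set ℕ) (hS : ∀ a ∈ S, ∀ b ∈ S, a = b) :
    mu {Y | rnd k Y n ∈ S} ≤ (2⁻¹ : ℝ≥0∞) ^ (2 * n + 1 + k) := by
  by_cases h : {Y | rnd k Y n ∈ S}.Nonempty
  · obtain ⟨Y0, hY0⟩ := h
    rw [← blk_card k n, ← cyl_fin Y0]
    refine measure_mono ?_
    intro Y hY i hi
    obtain ⟨j, hj, rfl⟩ := Finset.mem_image.1 hi
    have h1 : rnd k Y n = rnd k Y0 n := hS _ hY _ hY0
    exact bits_unique (b := fun i => Y (Nat.pair n i)) (b' := fun i => Y0 (Nat.pair n i)) h1 j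
      (Finset.mem_range.1 hj)
  · rw [Set.not_nonempty_iff_eq_empty] at h
    rw [h]; simp

/-- the bad event -/
def V (f : ℕ → ℕ) (k y n : ℕ) : Set (ℕ → Bool) :=
  {Y | ∃ l x, Run f (rnd k Y) n l ∧ Run f (rnd k Y) (n + 1) (l ++ [x]) ∧ x < y ∧ OK f l y ∧
    ¬ OK f (l ++ [x]) y}

/-- the run of length `n` is `l` -/
def AA (f : ℕ → ℕ) (k n : ℕ) (l : List ℕ) : Set (ℕ → Bool) := {Y | Run f (rnd k Y) n l}

/-- the values of the random number which are bad -/
def BS (f : ℕ → ℕ) (y : ℕ) (l : List ℕ) (a : ℕ) : Set ℕ :=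
  {m | ∃ x, x < y ∧ a < y ∧ x ≠ a ∧ {z | z < x ∧ New f l z}.ncard = m ∧
    f (Nat.pair x y) = f (Nat.pair a y)}

lemma BS_unique {f : ℕ → ℕ} (hf : TwoBounded f) (y : ℕ) (l : List ℕ) (a : ℕ) :
    ∀ m ∈ BS f y l a, ∀ m' ∈ BS f y l a, m = m' := by
  rintro m ⟨x, h1, h2, h3, h4, h5⟩ m' ⟨x', h1', _, h3', h4', h5'⟩
  have : x = x' := colour_unique hf h2 h1 h1' h3 h3' h5 h5'
  subst this
  rw [← h4, ← h4']

lemma run_inv {f r : ℕ → ℕ} {n : ℕ} {L : List ℕ} (h : Run f r (n + 1) L) :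
    ∃ l y, L = l ++ [y] ∧ Run f r n l ∧ New f l y ∧ {z | z < y ∧ New f l z}.ncard = r n := by
  cases h with
  | step h1 h2 h3 => exact ⟨_, _, rfl, h1, h2, h3⟩

lemma V_sub (f : ℕ → ℕ) (k y n : ℕ) :
    V f k y n ⊆ ⋃ l : {l : List ℕ // l.length = n}, (AA f k n l.1 ∩
      ⋃ a ∈ l.1.toFinset, {Y | rnd k Y n ∈ BS f y l.1 a}) := by
  rintro Y ⟨l, x, h1, h2, h3, h4, h5⟩
  refine Set.mem_iUnion.2 ⟨⟨l, run_length h1⟩, h1, ?_⟩
  obtain ⟨l', x', h6, h7, h8, h9⟩ := run_inv h2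
  obtain ⟨rfl, h10⟩ := List.append_inj' h6 rfl
  obtain rfl : x = x' := by simpa using h10
  have h11 : ∃ a ∈ l, x ≠ a ∧ f (Nat.pair x y) = f (Nat.pair a y) := by
    unfold OK at h5
    push Not at h5
    obtain ⟨a, ha, b, hb, hab, h12⟩ := h5
    simp only [List.mem_append, List.mem_singleton] at ha hb
    rcases ha with ha | rfl
    · rcases hb with hb | rfl
      · exact absurd h12 (h4 a ha b hb hab)
      · exact ⟨a, ha, hab.symm, h12.symm⟩
    · rcases hb with hb | rfl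
      · exact ⟨b, hb, hab, h12⟩
      · exact absurd rfl hab
  obtain ⟨a, ha, h12, h13⟩ := h11
  refine Set.mem_biUnion (List.mem_toFinset.2 ha) ?_
  exact ⟨x, h3, lt_trans (h8.1 a ha) h3, h12, h9, h13⟩

lemma AA_dep (f : ℕ → ℕ) (k n : ℕ) (l : List ℕ) : Dep (pr k n) (AA f k n l) := by
  intro Y Y' h hY
  exact run_congr (rnd_pr k n Y Y' h) hY

lemma B_dep (f : ℕ → ℕ) (k y n : ℕ) (l : List ℕ) :
    Dep (blk k n) (⋃ a ∈ l.toFinset, {Y | rnd k Y n ∈ BS f y l a}) := by
  intro Y Y' h hY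
  simp only [Set.mem_iUnion, Set.mem_ofPred_eq] at hY ⊢
  obtain ⟨a, ha, h2⟩ := hY
  refine ⟨a, ha, ?_⟩
  rw [← rnd_blk k n Y Y' h]
  exact h2

lemma B_meas {f : ℕ → ℕ} (hf : TwoBounded f) (k y n : ℕ) (l : List ℕ) (hl : l.length = n) :
    mu (⋃ a ∈ l.toFinset, {Y | rnd k Y n ∈ BS f y l a}) ≤ n * (2⁻¹ : ℝ≥0∞) ^ (2 * n + 1 + k) := by
  refine (measure_biUnion_finset_le _ _).trans ?_
  refine (Finset.sum_le_sum fun a _ => rnd_one k n _ (BS_unique hf y l a)).trans ?_
  rw [Finset.sum_const, nsmul_eq_mul]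
  gcongr
  rw [← hl]
  exact_mod_cast l.toFinset_card_le

lemma V_meas {f : ℕ → ℕ} (hf : TwoBounded f) (k y n : ℕ) :
    mu (V f k y n) ≤ n * (2⁻¹ : ℝ≥0∞) ^ (2 * n + 1 + k) := by
  refine (measure_mono (V_sub f k y n)).trans ?_
  refine (measure_iUnion_le _).trans ?_
  have h1 : ∀ l : {l : List ℕ // l.length = n}, mu (AA f k n l.1 ∩
      ⋃ a ∈ l.1.toFinset, {Y | rnd k Y n ∈ BS f y l.1 a}) ≤
      mu (AA f k n l.1) * (n * (2⁻¹ : ℝ≥0∞) ^ (2 * n + 1 + k)) := by
    intro l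
    rw [dep_indep (disj k n) (AA_dep f k n l.1) (B_dep f k y n l.1)]
    gcongr
    exact B_meas hf k y n l.1 l.2
  refine (ENNReal.tsum_le_tsum h1).trans ?_
  rw [ENNReal.tsum_mul_right]
  refine mul_le_of_le_one_left zero_le ?_
  rw [← measure_iUnion]
  · exact prob_le_one
  · intro l l' hll
    rw [Function.onFun, Set.disjoint_left]
    intro Y h2 h3
    exact hll (Subtype.ext (run_unique (fun _ _ => rfl) h2 h3))
  · intro l
    exact dep_meas (AA_dep f k n l.1)

lemma V_union {f : ℕ → ℕ} (hf : TwoBounded f) (k y : ℕ) :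
    mu (⋃ n, V f k y n) ≤ (2⁻¹ : ℝ≥0∞) ^ k := by
  refine (measure_iUnion_le _).trans ?_
  have h1 : ∀ n, mu (V f k y n) ≤ (2⁻¹ : ℝ≥0∞) ^ k * ((2⁻¹ : ℝ≥0∞) ^ 1 * (2⁻¹ : ℝ≥0∞) ^ n) := by
    intro n
    refine (V_meas hf k y n).trans ?_
    have h2 : (n : ℝ≥0∞) ≤ 2 ^ n := by exact_mod_cast n.lt_two_pow_self.le
    have h3 : (2⁻¹ : ℝ≥0∞) ^ (2 * n + 1 + k) =
        (2⁻¹ : ℝ≥0∞) ^ n * ((2⁻¹ : ℝ≥0∞) ^ k * ((2⁻¹ : ℝ≥0∞) ^ 1 * (2⁻¹ : ℝ≥0∞) ^ n)) := by
      rw [← pow_add, ← pow_add, ← pow_add]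
      congr 1
      ring
    rw [h3, ← mul_assoc]
    refine mul_le_of_le_one_left zero_le ?_
    calc (n : ℝ≥0∞) * 2⁻¹ ^ n ≤ 2 ^ n * 2⁻¹ ^ n := by gcongr
      _ = 1 := by
        rw [← mul_pow, ENNReal.mul_inv_cancel (by norm_num) (by norm_num), one_pow]
  refine (ENNReal.tsum_le_tsum h1).trans ?_
  rw [ENNReal.tsum_mul_left, ENNReal.tsum_mul_left, ENNReal.tsum_geometric, ENNReal.one_sub_inv_two,
    inv_inv, pow_one, ENNReal.inv_mul_cancel (by norm_num) (by norm_num), mul_one]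

lemma good_runs {f : ℕ → ℕ} (hf : TwoBounded f) {k : ℕ} {Y : ℕ → Bool}
    (hY : {y | Y ∉ ⋃ n, V f k y n}.Infinite) (n : ℕ) :
    ∃ l, Run f (rnd k Y) n l ∧ ∀ y, (Y ∉ ⋃ n, V f k y n) → (∀ a ∈ l, a < y) → OK f l y := by
  induction n with
  | zero => exact ⟨[], Run.nil, fun y _ _ a ha => by simp at ha⟩
  | succ n ih =>
    obtain ⟨l, h1, h2⟩ := ih
    have h3 : {y | OK f l y}.Infinite := by
      have h4 : {y | (Y ∉ ⋃ n, V f k y n)} ⊆ {y | OK f l y} ∪ ⋃ a ∈ l.toFinset, Set.Iic a := by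
        intro y hy
        by_cases h5 : ∀ a ∈ l, a < y
        · exact Or.inl (h2 y hy h5)
        · right
          push Not at h5
          obtain ⟨a, ha, h6⟩ := h5
          simp only [Set.mem_iUnion, List.mem_toFinset]
          exact ⟨a, ha, h6⟩
      intro hcon
      apply hY
      refine (hcon.union ?_).subset h4
      exact Set.Finite.biUnion (Finset.finite_toSet _) fun a _ => Set.finite_Iic a
    obtain ⟨x, hx⟩ := run_step hf h1 h3
    refine ⟨l ++ [x], hx, ?_⟩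
    intro y hy h4
    by_contra h5
    apply hy
    refine Set.mem_iUnion.2 ⟨n, l, x, h1, hx, h4 x (by simp), ?_, h5⟩
    exact h2 y hy fun a ha => h4 a (by simp [ha])

theorem r1 : S_R1 := by
  intro f hf k
  have h1 : {Y | ∀ n, ∃ l, Run f (rnd k Y) n l}ᶜ ⊆ ⋃ m : ℕ, ⋂ y ≥ m, ⋃ n, V f k y n := by
    intro Y hY
    by_contra hcon
    apply hY
    intro n
    have h2 : {y | Y ∉ ⋃ n, V f k y n}.Infinite := by
      rw [Set.infinite_iff_exists_gt]
      intro a
      simp only [Set.mem_iUnion, Set.mem_iInter, not_exists, not_forall] at hcon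
      obtain ⟨y, hy, h3⟩ := hcon (a + 1)
      refine ⟨y, ?_, by omega⟩
      simp only [Set.mem_ofPred_eq, Set.mem_iUnion, not_exists]
      exact h3
    obtain ⟨l, h3, _⟩ := good_runs hf h2 n
    exact ⟨l, h3⟩
  have h2 : mu {Y | ∀ n, ∃ l, Run f (rnd k Y) n l}ᶜ ≤ (2⁻¹ : ℝ≥0∞) ^ k := by
    refine (measure_mono h1).trans ?_
    rw [Monotone.measure_iUnion]
    · refine iSup_le fun m => ?_
      refine (measure_mono ?_).trans (V_union hf k m)
      exact Set.iInter₂_subset m le_rfl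
    · intro m m' hmm Y hY
      simp only [Set.mem_iInter] at hY ⊢
      intro y hy
      exact hY y (le_trans hmm hy)
  rw [tsub_le_iff_right]
  have h3 : (1 : ℝ≥0∞) = mu Set.univ := measure_univ.symm
  rw [h3, ← Set.union_compl_self {Y | ∀ n, ∃ l, Run f (rnd k Y) n l}]
  exact (measure_union_le _ _).trans (add_le_add le_rfl h2)

end Pool.Agent.Q56.NH
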