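import Pool.Agent.Q56.NH.R1
import Pool.Agent.H166R3.AT.CT

set_option autoImplicit false

/-! Project NH, job R2: the rainbow set is computable from the colouring and the random bits. -/

namespace Pool.Agent.Q56.NH

open Pool.Agent.Q205.NH Pool.Agent.Helper743 Pool.Agent.H715R3.Disp
open Pool.Agent.H166R3.AT (c_and c_or c_not c_le c_lt c_eq c_add c_mul c_pow c_sum c_ofb c_count
  c_ball ball_iff lall lall_iff c_lall mem_iff c_mem c_ite)

/-! ### locality -/

lemma new_congr {f f' : ℕ → ℕ} {B : ℕ} (hf : ∀ a ≤ B, ∀ b ≤ B, f (Nat.pair a b) = f' (Nat.pair a b))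
    {l : List ℕ} (hl : ∀ a ∈ l, a ≤ B) {y : ℕ} (hy : y ≤ B) (h : New f l y) : New f' l y := by
  refine ⟨h.1, ?_, ?_⟩
  · intro a ha b hb hab
    rw [← hf a (hl a ha) y hy, ← hf b (hl b hb) y hy]
    exact h.2.1 a ha b hb hab
  · intro a ha b hb k hk hab
    rw [← hf k (hl k hk) y hy, ← hf a (hl a ha) b (hl b hb)]
    exact h.2.2 a ha b hb k hk hab

lemma run_local {f f' r r' : ℕ → ℕ} {B : ℕ}
    (hf : ∀ a ≤ B, ∀ b ≤ B, f (Nat.pair a b) = f' (Nat.pair a b)) {n : ℕ} {l : List ℕ}
    (hl : ∀ a ∈ l, a ≤ B) (hr : ∀ i < n, r i = r' i) (h : Run f r n l) : Run f' r' n l := by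
  induction n generalizing l with
  | zero =>
    cases h
    exact Run.nil
  | succ n ih =>
    obtain ⟨l', y, rfl, h1, h2, h3⟩ := run_inv h
    have hl' : ∀ a ∈ l', a ≤ B := fun a ha => hl a (by simp [ha])
    have hy : y ≤ B := hl y (by simp)
    refine Run.step (ih hl' (fun i hi => hr i (by omega)) h1) (new_congr hf hl' hy h2) ?_
    rw [← hr n (by omega), ← h3]
    congr 1
    ext z
    constructor
    · rintro ⟨h4, h5⟩
      exact ⟨h4, new_congr (fun a ha b hb => (hf a ha b hb).symm) hl' (by omega) h5⟩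
    · rintro ⟨h4, h5⟩
      exact ⟨h4, new_congr hf hl' (by omega) h5⟩

/-! ### the boolean test -/

/-- the colouring read off from a string -/
def fs (σ : List ℕ) (m : ℕ) : ℕ := (σ.getD m 0).unpair.1

/-- the random bits read off from a string -/
def ys (σ : List ℕ) (m : ℕ) : Bool := decide ((σ.getD m 0).unpair.2 = 1)

def newB (σ l : List ℕ) (y : ℕ) : Bool :=
  lall l (fun a => decide (a < y)) &&
  (lall l (fun a => lall l (fun b => decide (a = b) ||
    !decide (fs σ (Nat.pair a y) = fs σ (Nat.pair b y)))) &&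
  lall l (fun a => lall l (fun b => lall l (fun c => !decide (a < b) ||
    !decide (fs σ (Nat.pair c y) = fs σ (Nat.pair a b))))))

lemma newB_iff (σ l : List ℕ) (y : ℕ) : newB σ l y = true ↔ New (fs σ) l y := by
  simp only [newB, Bool.and_eq_true, lall_iff, Bool.or_eq_true, Bool.not_eq_true', decide_eq_true_iff,
    decide_eq_false_iff_not, New]
  constructor
  · rintro ⟨h1, h2, h3⟩
    refine ⟨h1, fun a ha b hb hab => ?_, fun a ha b hb k hk hab => ?_⟩
    · rcases h2 a ha b hb with h | h
      · exact absurd h hab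
      · exact h
    · rcases h3 a ha b hb k hk with h | h
      · exact absurd hab h
      · exact h
  · rintro ⟨h1, h2, h3⟩
    refine ⟨h1, fun a ha b hb => ?_, fun a ha b hb k hk => ?_⟩
    · by_cases hab : a = b
      · exact Or.inl hab
      · exact Or.inr (h2 a ha b hb hab)
    · by_cases hab : a < b
      · exact Or.inr (h3 a ha b hb k hk hab)
      · exact Or.inl hab

section
variable {α : Type*} [Primcodable α]

lemma c_fs {s : α → List ℕ} {m : α → ℕ} (hs : Computable s) (hm : Computable m) :
    Computable (fun a => fs (s a) (m a)) := by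
  have h : Primrec₂ (fun (s : List ℕ) (m : ℕ) => fs s m) :=
    Primrec.fst.comp (Primrec.unpair.comp (Primrec.list_getD 0))
  exact h.to_comp.comp hs hm

lemma c_ys {s : α → List ℕ} {m : α → ℕ} (hs : Computable s) (hm : Computable m) :
    Computable (fun a => ys (s a) (m a)) := by
  have h : Primrec₂ (fun (s : List ℕ) (m : ℕ) => ys s m) :=
    (Primrec.eq.comp (Primrec.snd.comp (Primrec.unpair.comp (Primrec.list_getD 0)))
      (Primrec.const 1)).decide
  exact h.to_comp.comp hs hm

lemma c_pair {s m : α → ℕ} (hs : Computable s) (hm : Computable m) :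
    Computable (fun a => Nat.pair (s a) (m a)) :=
  Primrec₂.natPair.to_comp.comp hs hm

lemma c_newB {s l : α → List ℕ} {y : α → ℕ} (hs : Computable s) (hl : Computable l)
    (hy : Computable y) : Computable (fun a => newB (s a) (l a) (y a)) := by
  have f1 : Computable (fun q : α × ℕ => q.1) := Computable.fst
  have g1 : Computable (fun q : (α × ℕ) × ℕ => q.1.1) := Computable.fst.comp Computable.fst
  have g2 : Computable (fun q : (α × ℕ) × ℕ => q.1.2) := Computable.snd.comp Computable.fst
  have g3 : Computable (fun q : (α × ℕ) × ℕ => q.2) := Computable.snd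
  have h1 : Computable (fun q : ((α × ℕ) × ℕ) × ℕ => q.1.1.1) :=
    Computable.fst.comp (Computable.fst.comp Computable.fst)
  have h2 : Computable (fun q : ((α × ℕ) × ℕ) × ℕ => q.1.1.2) :=
    Computable.snd.comp (Computable.fst.comp Computable.fst)
  have h3 : Computable (fun q : ((α × ℕ) × ℕ) × ℕ => q.1.2) :=
    Computable.snd.comp Computable.fst
  have h4 : Computable (fun q : ((α × ℕ) × ℕ) × ℕ => q.2) := Computable.snd
  unfold newB
  refine c_and ?_ (c_and ?_ ?_)
  · exact c_lall hl (c_lt Computable.snd (hy.comp Computable.fst))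
  · refine c_lall hl (c_lall (hl.comp f1) (c_or (c_eq g2 g3) (c_not (c_eq
      (c_fs (hs.comp g1) (c_pair g2 (hy.comp g1))) (c_fs (hs.comp g1) (c_pair g3 (hy.comp g1)))))))
  · refine c_lall hl (c_lall (hl.comp f1) (c_lall (hl.comp g1) (c_or (c_not (c_lt h2 h3))
      (c_not (c_eq (c_fs (hs.comp h1) (c_pair h4 (hy.comp h1)))
        (c_fs (hs.comp h1) (c_pair h2 h3)))))))

/-- number of the candidates below `y` -/
def cnt (σ l : List ℕ) (y : ℕ) : ℕ :=
  ((Finset.range y).filter (fun z => newB σ l z = true)).card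

lemma cnt_eq (σ l : List ℕ) (y : ℕ) : cnt σ l y = {z | z < y ∧ New (fs σ) l z}.ncard := by
  rw [cnt, ← Set.ncard_coe_finset]
  congr 1
  ext z
  simp [newB_iff]

lemma c_cnt {s l : α → List ℕ} {y : α → ℕ} (hs : Computable s) (hl : Computable l)
    (hy : Computable y) : Computable (fun a => cnt (s a) (l a) (y a)) := by
  unfold cnt
  exact c_count hy (c_newB (hs.comp Computable.fst) (hl.comp Computable.fst) Computable.snd)

lemma c_rnd (k : ℕ) {s : α → List ℕ} {n : α → ℕ} (hs : Computable s) (hn : Computable n) :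
    Computable (fun a => rnd k (ys (s a)) (n a)) := by
  unfold rnd
  refine c_sum ?_ ?_
  · exact c_add (c_add (c_mul (Computable.const 2) hn) (Computable.const 1)) (Computable.const k)
  · exact c_mul (c_ofb (c_ys (hs.comp Computable.fst) (c_pair (hn.comp Computable.fst)
      Computable.snd))) (c_pow (Computable.const 2) Computable.snd)

/-- test for `Run` -/
def runB (k : ℕ) (σ : List ℕ) (n : ℕ) (l : List ℕ) : Bool :=
  decide (l.length = n) && Pool.Agent.H166R3.AT.ball n (fun i =>
    newB σ (l.take i) (l.getD i 0) &&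
      decide (cnt σ (l.take i) (l.getD i 0) = rnd k (ys σ) i))

lemma c_runB (k : ℕ) {s l : α → List ℕ} {n : α → ℕ} (hs : Computable s) (hn : Computable n)
    (hl : Computable l) : Computable (fun a => runB k (s a) (n a) (l a)) := by
  unfold runB
  have a1 : Computable (fun q : α × ℕ => (l q.1).take q.2) :=
    Primrec.list_take.to_comp.comp Computable.snd (hl.comp Computable.fst)
  have a2 : Computable (fun q : α × ℕ => (l q.1).getD q.2 0) :=
    (Primrec.list_getD 0).to_comp.comp (hl.comp Computable.fst) Computable.snd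
  have a3 : Computable (fun q : α × ℕ => s q.1) := hs.comp Computable.fst
  refine c_and (c_eq (Computable.list_length.comp hl) hn) (c_ball hn (c_and ?_ ?_))
  · exact c_newB a3 a1 a2
  · exact c_eq (c_cnt a3 a1 a2) (c_rnd k a3 Computable.snd)

end

lemma runB_iff (k : ℕ) (σ : List ℕ) (n : ℕ) (l : List ℕ) :
    runB k σ n l = true ↔ Run (fs σ) (rnd k (ys σ)) n l := by
  simp only [runB, Bool.and_eq_true, decide_eq_true_iff, ball_iff, newB_iff, cnt_eq]
  induction n generalizing l with
  | zero =>
    constructor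
    · rintro ⟨h1, _⟩
      rw [List.length_eq_zero_iff] at h1
      subst h1
      exact Run.nil
    · intro h
      cases h
      exact ⟨rfl, fun i hi => by omega⟩
  | succ n ih =>
    constructor
    · rintro ⟨h1, h2⟩
      have h3 : l ≠ [] := by
        intro h; rw [h] at h1; simp at h1
      obtain ⟨l', y, rfl⟩ : ∃ l' y, l = l' ++ [y] :=
        ⟨l.dropLast, l.getLast h3, (List.dropLast_append_getLast h3).symm⟩
      have h4 : l'.length = n := by simpa using h1
      have h5 := h2 n (by omega)
      have h6 : (l' ++ [y]).take n = l' := by rw [← h4]; simp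
      have h7 : (l' ++ [y]).getD n 0 = y := by rw [← h4]; simp
      rw [h6, h7] at h5
      refine Run.step ((ih l').1 ⟨h4, fun i hi => ?_⟩) h5.1 h5.2
      have h8 := h2 i (by omega)
      have h9 : (l' ++ [y]).take i = l'.take i := by
        rw [List.take_append_of_le_length (by omega)]
      have h10 : (l' ++ [y]).getD i 0 = l'.getD i 0 := by
        rw [List.getD_append _ _ _ _ (by omega)]
      rw [h9, h10] at h8
      exact h8
    · intro h
      obtain ⟨l', y, rfl, h1, h2, h3⟩ := run_inv h
      obtain ⟨h4, h5⟩ := (ih l').2 h1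
      refine ⟨by simp [h4], fun i hi => ?_⟩
      rcases Nat.lt_succ_iff_lt_or_eq.1 hi with h6 | h6
      · have h9 : (l' ++ [y]).take i = l'.take i := by
          rw [List.take_append_of_le_length (by omega)]
        have h10 : (l' ++ [y]).getD i 0 = l'.getD i 0 := by
          rw [List.getD_append _ _ _ _ (by omega)]
        rw [h9, h10]
        exact h5 i h6
      · subst h6
        have h6 : (l' ++ [y]).take i = l' := by rw [← h4]; simp
        have h7 : (l' ++ [y]).getD i 0 = y := by rw [← h4]; simp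
        rw [h6, h7]
        exact ⟨h2, h3⟩

/-- the certificate check -/
def chkB (k : ℕ) (σ : List ℕ) (x : ℕ) (q : List ℕ × ℕ) : Bool :=
  lall q.1 (fun a => decide (a ≤ q.2)) && (decide (2 * x + k + 1 ≤ q.2) &&
    (decide ((q.2 + 1) ^ 2 ≤ σ.length) && runB k σ (x + 1) q.1))

/-- the verifier -/
def vf (k : ℕ) (σ : List ℕ) (x w : ℕ) : Option ℕ :=
  (Encodable.decode w : Option (List ℕ × ℕ)).bind (fun q =>
    if chkB k σ x q = true then some (Pool.Agent.H166R3.AT.mem x q.1).toNat else none)

lemma vf_computable (k : ℕ) :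
    Computable (fun q : (List ℕ × ℕ) × ℕ => vf k q.1.1 q.1.2 q.2) := by
  unfold vf
  refine Computable.option_bind (Computable.decode.comp Computable.snd) ?_
  have b1 : Computable (fun z : ((List ℕ × ℕ) × ℕ) × (List ℕ × ℕ) => z.1.1.1) :=
    Computable.fst.comp (Computable.fst.comp Computable.fst)
  have b2 : Computable (fun z : ((List ℕ × ℕ) × ℕ) × (List ℕ × ℕ) => z.1.1.2) :=
    Computable.snd.comp (Computable.fst.comp Computable.fst)
  have b3 : Computable (fun z : ((List ℕ × ℕ) × ℕ) × (List ℕ × ℕ) => z.2.1) :=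
    Computable.fst.comp Computable.snd
  have b4 : Computable (fun z : ((List ℕ × ℕ) × ℕ) × (List ℕ × ℕ) => z.2.2) :=
    Computable.snd.comp Computable.snd
  refine c_ite (g := fun z : ((List ℕ × ℕ) × ℕ) × (List ℕ × ℕ) =>
    some (Pool.Agent.H166R3.AT.mem z.1.1.2 z.2.1).toNat)
    (h := fun _ => (none : Option ℕ)) ?_ (Computable.option_some.comp (c_ofb (c_mem b2 b3)))
    (Computable.const none)
  unfold chkB
  refine c_and (c_lall b3 (c_le Computable.snd (b4.comp Computable.fst))) (c_and ?_ (c_and ?_ ?_))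
  · exact c_le (c_add (c_add (c_mul (Computable.const 2) b2) (Computable.const k))
      (Computable.const 1)) b4
  · exact c_le (c_pow (c_add b4 (Computable.const 1)) (Computable.const 2))
      (Computable.list_length.comp b1)
  · exact c_runB k b1 (c_add b2 (Computable.const 1)) b3

lemma read_f (f : ℕ → ℕ) (Y : ℕ → Bool) {n m : ℕ} (h : m < n) :
    fs (pre (join f (bn Y)) n) m = f m := by
  unfold fs
  rw [List.getD_eq_getElem?_getD, pre_getElem?, if_pos h]
  simp [join]

lemma read_y (f : ℕ → ℕ) (Y : ℕ → Bool) {n m : ℕ} (h : m < n) :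
    ys (pre (join f (bn Y)) n) m = Y m := by
  unfold ys
  rw [List.getD_eq_getElem?_getD, pre_getElem?, if_pos h]
  cases h2 : Y m <;> simp [join, bn, h2]

/-- for a string which is long enough the test is correct -/
lemma runB_correct (k : ℕ) (f : ℕ → ℕ) (Y : ℕ → Bool) (n x B : ℕ) (l : List ℕ)
    (hl : ∀ a ∈ l, a ≤ B) (hB : 2 * x + k + 1 ≤ B) (hn : (B + 1) ^ 2 ≤ n) :
    runB k (pre (join f (bn Y)) n) (x + 1) l = true ↔ Run f (rnd k Y) (x + 1) l := by
  rw [runB_iff]
  have hp : ∀ a ≤ B, ∀ b ≤ B, Nat.pair a b < n := by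
    intro a ha b hb
    refine lt_of_lt_of_le (Nat.pair_lt_max_add_one_sq a b) (le_trans ?_ hn)
    have : max a b ≤ B := max_le ha hb
    gcongr
  have h1 : ∀ a ≤ B, ∀ b ≤ B, fs (pre (join f (bn Y)) n) (Nat.pair a b) = f (Nat.pair a b) :=
    fun a ha b hb => read_f f Y (hp a ha b hb)
  have h2 : ∀ i < x + 1, rnd k (ys (pre (join f (bn Y)) n)) i = rnd k Y i := by
    intro i hi
    unfold rnd
    refine Finset.sum_congr rfl fun j hj => ?_
    rw [read_y f Y (hp i (by omega) j (by have := Finset.mem_range.1 hj; omega))]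
  exact ⟨fun h => run_local h1 hl h2 h,
    fun h => run_local (fun a ha b hb => (h1 a ha b hb).symm) hl (fun i hi => (h2 i hi).symm) h⟩

theorem r2 : S_R2 := by
  intro f k Y hrun
  classical
  choose l hl using hrun
  have hs : ∀ n, ∃ y, l (n + 1) = l n ++ [y] ∧ New f (l n) y := by
    intro n
    obtain ⟨l', y, h1, h2, h3, _⟩ := run_inv (hl (n + 1))
    obtain rfl := run_unique (fun _ _ => rfl) h2 (hl n)
    exact ⟨y, h1, h3⟩
  choose y hy1 hy2 using hs
  have hmem : ∀ n x, x ∈ l n ↔ ∃ i < n, y i = x := by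
    intro n
    induction n with
    | zero =>
      intro x
      have : l 0 = [] := List.length_eq_zero_iff.1 (run_length (hl 0))
      simp [this]
    | succ n ih =>
      intro x
      rw [hy1, List.mem_append, ih, List.mem_singleton]
      constructor
      · rintro (⟨i, hi, h⟩ | h)
        · exact ⟨i, by omega, h⟩
        · exact ⟨n, by omega, h.symm⟩
      · rintro ⟨i, hi, h⟩
        rcases Nat.lt_succ_iff_lt_or_eq.1 hi with h2 | h2
        · exact Or.inl ⟨i, h2, h⟩
        · right; rw [← h, h2]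
  have hmono : StrictMono y := by
    intro i j hij
    exact (hy2 j).1 (y i) ((hmem j _).2 ⟨i, hij, rfl⟩)
  have hR : ∀ x, (∃ i, y i = x) ↔ x ∈ l (x + 1) := by
    intro x
    rw [hmem]
    constructor
    · rintro ⟨i, h⟩
      have := hmono.le_apply (x := i)
      exact ⟨i, by omega, h⟩
    · rintro ⟨i, _, h⟩
      exact ⟨i, h⟩
  refine ⟨fun x => decide (x ∈ l (x + 1)), ?_, ?_, ?_⟩
  · refine cert (TR.refl (join f (bn Y))) (vf k) (vf_computable k) _ ?_ ?_
    · intro x
      let B := (l (x + 1)).sum + (2 * x + k + 1)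
      have hB : ∀ a ∈ l (x + 1), a ≤ B := by
        intro a ha
        have := List.single_le_sum (fun _ _ => Nat.zero_le _) a ha
        exact this.trans (Nat.le_add_right _ _)
      refine ⟨(B + 1) ^ 2, Encodable.encode (l (x + 1), B), ?_⟩
      unfold vf
      rw [Encodable.encodek, Option.bind_some, if_pos]
      · rfl
      · simp only [chkB, Bool.and_eq_true, lall_iff, decide_eq_true_iff, pre_length]
        exact ⟨hB, Nat.le_add_left _ _, le_rfl,
          (runB_correct k f Y _ x B _ hB (Nat.le_add_left _ _) le_rfl).2 (hl (x + 1))⟩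
    · intro x n w z hz
      unfold vf at hz
      rw [Option.bind_eq_some_iff] at hz
      obtain ⟨⟨L, B⟩, _, h2⟩ := hz
      by_cases h3 : chkB k (pre (join f (bn Y)) n) x (L, B) = true
      · rw [if_pos h3] at h2
        simp only [chkB, Bool.and_eq_true, lall_iff, decide_eq_true_iff, pre_length] at h3
        obtain ⟨h4, h5, h6, h7⟩ := h3
        have h8 := (runB_correct k f Y n x B L h4 h5 h6).1 h7
        have h9 : L = l (x + 1) := run_unique (fun _ _ => rfl) h8 (hl (x + 1))
        have h10 := Option.some.inj h2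
        rw [← h10, h9]
        unfold bn
        congr 1
        rw [Bool.eq_iff_iff, mem_iff, decide_eq_true_iff]
      · rw [if_neg h3] at h2
        exact absurd h2 (by simp)
  · have h1 : {x | decide (x ∈ l (x + 1)) = true} = Set.range y := by
      ext x
      simp only [Set.mem_ofPred_eq, decide_eq_true_iff, Set.mem_range]
      exact (hR x).symm
    rw [h1]
    exact Set.infinite_range_of_injective hmono.injective
  · intro a ha b hb a' ha' b' hb' hab hab' heq
    simp only [Set.mem_ofPred_eq, decide_eq_true_iff] at ha hb ha' hb'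
    obtain ⟨i, rfl⟩ := (hR a).2 ha
    obtain ⟨j, rfl⟩ := (hR b).2 hb
    obtain ⟨i', rfl⟩ := (hR a').2 ha'
    obtain ⟨j', rfl⟩ := (hR b').2 hb'
    have hij := hmono.lt_iff_lt.1 hab
    have hij' := hmono.lt_iff_lt.1 hab'
    rcases lt_trichotomy j j' with h | h | h
    · exact absurd heq.symm ((hy2 j').2.2 (y i) ((hmem _ _).2 ⟨i, by omega, rfl⟩) (y j)
        ((hmem _ _).2 ⟨j, h, rfl⟩) (y i') ((hmem _ _).2 ⟨i', hij', rfl⟩) hab)
    · subst h
      refine ⟨?_, rfl⟩
      by_contra hne
      exact (hy2 j).2.1 (y i) ((hmem _ _).2 ⟨i, hij, rfl⟩) (y i')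
        ((hmem _ _).2 ⟨i', hij', rfl⟩) hne heq
    · exact absurd heq ((hy2 j).2.2 (y i') ((hmem _ _).2 ⟨i', by omega, rfl⟩) (y j')
        ((hmem _ _).2 ⟨j', h, rfl⟩) (y i) ((hmem _ _).2 ⟨i, hij, rfl⟩) hab')

end Pool.Agent.Q56.NH
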